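import Mathlib
import Pool.Agent.H540R2.Circ
import Pool.Agent.H540R2.Lift.NegDefs
import Pool.Agent.H540R2.Lift.DSim

/-!
# Depth and the number of NOT gates of circuits for directed connectivity

Circuits (of any size) with `t` NOT gates for directed connectivity on `N` vertices, which is in P
and complete for NL, have depth at least `c * (log N - t) ^ 2`. In particular circuits of depth
`O(log N)` need `log N - O(sqrt (log N))` NOT gates.
-/

set_option autoImplicit false

namespace Pool.Agent.Results.MP_027d00_lc.ConnectivityDepth

open Pool.Agent.H540R2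

/-- There is a constant `c` such that for every `N ≥ 2` there is a directed graph `H` with `N`
vertices and at most `N` arcs such that the following holds. Let `C` be a circuit of depth at most
`q`, where `q ≥ log₂ N`, that decides for every subgraph of `H`, given by its adjacency matrix,
whether vertex `1` is reachable from vertex `0`. Then
`(log₂ N - number of NOT gates) ^ 2 ≤ c * q`. -/
theorem result : ∃ c : ℕ, ∀ (N : ℕ) (hN : 2 ≤ N), ∃ H : Finset (Fin N × Fin N), H.card ≤ N ∧
    ∀ (C : Circuit (N * N)) (q : ℕ),
      (∀ x : Fin (N * N) → Bool, (∀ u v, x (finProdFinEquiv (u, v)) = true → (u, v) ∈ H) →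
        (C.eval x = true ↔ Relation.ReflTransGen (fun u v => x (finProdFinEquiv (u, v)) = true)
          ⟨0, by omega⟩ ⟨1, by omega⟩)) →
      Nat.log 2 N ≤ q → C.depth ≤ q → (Nat.log 2 N - C.nots) ^ 2 ≤ c * q :=
  Pool.Agent.H540R2.Lift.st_depth

end Pool.Agent.Results.MP_027d00_lc.ConnectivityDepth
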