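import Pool.Agent.H560R2.Fm3

/-!
Formulas with few NOT gates for an explicit function in P.

The function decides whether at least one of `M` given path systems on `n` nodes is solvable. A
formula with `t` NOT gates is an arbitrary function of `5 t + 1` monotone formulas whose total size
is at most twice the size of the formula (cut it at the NOT gates and at the places where two of
the remaining parts meet). A chain of inputs without solvable path system is built block by block:
if in some block no such input changes the value of one of the monotone formulas, then the OR of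
those of them that are `0` is a monotone formula for the block, which contradicts a rank bound for
the pyramid.
-/

namespace Pool.Agent.Results.MP_027d00_lc.FormulaNegations

/-- Formulas: variables, AND, OR, and arbitrary gates `any w op a` that apply an arbitrary Boolean
function `op` to `w` formulas `a 0, ..., a (w-1)` (for instance NOT gates, with `w = 1`). -/
inductive Formula (V : Type) : Type
  | var (v : V) : Formula V
  | and (a b : Formula V) : Formula V
  | or (a b : Formula V) : Formula V
  | any (w : ℕ) (op : (Fin w → Bool) → Bool) (a : Fin w → Formula V) : Formula V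

/-- the value on the input `x` -/
def Formula.eval {V : Type} : Formula V → (V → Bool) → Bool
  | .var v, x => x v
  | .and a b, x => a.eval x && b.eval x
  | .or a b, x => a.eval x || b.eval x
  | .any _ op a, x => op (fun i => (a i).eval x)

/-- the size: the number of leaves that are variables -/
def Formula.leaves {V : Type} : Formula V → ℕ
  | .var _ => 1
  | .and a b => a.leaves + b.leaves
  | .or a b => a.leaves + b.leaves
  | .any _ _ a => ∑ i, (a i).leaves

/-- the total fan-in of the arbitrary gates, in particular the number of NOT gates if all of them
are NOT gates -/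
def Formula.free {V : Type} : Formula V → ℕ
  | .var _ => 0
  | .and a b => a.free + b.free
  | .or a b => a.free + b.free
  | .any w _ a => w + ∑ i, (a i).free

/-- The bits of a path system with nodes `Fin n`: for every triple, whether it is in `R`, and for
every node, whether it is a source, and whether it is a terminal. -/
abbrev Bits (n : ℕ) : Type := (Fin n × Fin n × Fin n) ⊕ Fin n ⊕ Fin n

/-- The node `a` is admissible: it lies in every set that contains the terminals and contains `a'`
whenever it contains `b'` and `c'` for some triple `(a', b', c')` in `R`. -/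
def Admissible {n : ℕ} (x : Bits n → Bool) (a : Fin n) : Prop :=
  ∀ A : Set (Fin n), (∀ t, x (Sum.inr (Sum.inr t)) = true → t ∈ A) →
    (∀ a' b' c', x (Sum.inl (a', b', c')) = true → b' ∈ A → c' ∈ A → a' ∈ A) → a ∈ A

/-- The path system is solvable: some source is admissible. -/
def Solvable {n : ℕ} (x : Bits n → Bool) : Prop :=
  ∃ a, x (Sum.inr (Sum.inl a)) = true ∧ Admissible x a

/-- Let `4 (h+1)^4 ≤ n`. If a formula with fewer than `4^(h+1) / 2` leaves decides whether at least
one of `M` path systems on `n` nodes is solvable, then the total fan-in of its arbitrary gates is at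
least `(M - 1) / 5`. -/
theorem result (h M n : ℕ) (hn : 4 * (h + 1) ^ 4 ≤ n) (φ : Formula (Fin M × Bits n))
    (hφ : ∀ x, φ.eval x = true ↔ ∃ J, Solvable (fun b => x (J, b)))
    (hs : 2 * φ.leaves < 4 ^ (h + 1)) : M ≤ 5 * φ.free + 1 := by
  have key : ∀ ψ : Formula (Fin M × Bits n), ∃ χ : Pool.Agent.H560R2.GF (Fin M × Bits n),
      (∀ x, χ.eval x = ψ.eval x) ∧ χ.leaves = ψ.leaves ∧ χ.free = ψ.free := by
    intro ψ
    induction ψ with
    | var v => exact ⟨.var v, fun _ => rfl, rfl, rfl⟩
    | and a b iha ihb =>
      obtain ⟨a', a1, a2, a3⟩ := iha
      obtain ⟨b', b1, b2, b3⟩ := ihb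
      refine ⟨.and a' b', fun x => ?_, ?_, ?_⟩
      · simp only [Pool.Agent.H560R2.GF.eval, Formula.eval, a1, b1]
      · simp only [Pool.Agent.H560R2.GF.leaves, Formula.leaves, a2, b2]
      · simp only [Pool.Agent.H560R2.GF.free, Formula.free, a3, b3]
    | or a b iha ihb =>
      obtain ⟨a', a1, a2, a3⟩ := iha
      obtain ⟨b', b1, b2, b3⟩ := ihb
      refine ⟨.or a' b', fun x => ?_, ?_, ?_⟩
      · simp only [Pool.Agent.H560R2.GF.eval, Formula.eval, a1, b1]
      · simp only [Pool.Agent.H560R2.GF.leaves, Formula.leaves, a2, b2]
      · simp only [Pool.Agent.H560R2.GF.free, Formula.free, a3, b3]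
    | any w op a ih =>
      choose a' a1 a2 a3 using ih
      refine ⟨.any w op a', fun x => ?_, ?_, ?_⟩
      · simp only [Pool.Agent.H560R2.GF.eval, Formula.eval, a1]
      · simp only [Pool.Agent.H560R2.GF.leaves, Formula.leaves, a2]
      · simp only [Pool.Agent.H560R2.GF.free, Formula.free, a3]
  obtain ⟨χ, h1, h2, h3⟩ := key φ
  rw [← h3]
  exact Pool.Agent.H560R2.blocks_lower h M n hn χ (fun x => by rw [h1]; exact hφ x)
    (by rw [h2]; exact hs)

end Pool.Agent.Results.MP_027d00_lc.FormulaNegations
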