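import Pool.Agent.H676.Asym

/-!
Parity needs almost `2 log n` free layers in circuits of depth `O(log n)`.

Formulas (`Fm n`, defined in `Pool.Agent.H676.Fm`) are binary trees of AND and OR gates over the
literals of `n` variables; a circuit with gates of fan-in two unfolds to such a tree of the same
depth, its NOT gates being moved to the inputs. The list `σ` describes how the layers of the formula
are divided, from the output to the inputs, into homogeneous and free blocks.
-/

namespace Pool.Agent.Results.MP_027d00_lc.ParityFreeLayers

open Pool.Agent.H676

/-- Let `C, W` be natural numbers and `ε > 0`. There are `κ > 0` and `N` such that for all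
`n ≥ N` no formula computes the parity of `n` bits, if its layers can be divided into blocks, as
described by a list `σ`, with altogether at most `C log n` layers, at most `W` free blocks, at most
`κ log n / log log n` homogeneous blocks, and at most `(2 - ε) log n` layers in the free blocks. -/
theorem result (C W : ℕ) (ε : ℝ) (hε : 0 < ε) : ∃ κ : ℝ, 0 < κ ∧ ∃ N : ℕ, ∀ n ≥ N,
    ∀ σ : List (Bool × ℕ), ((lay true σ + lay false σ : ℕ) : ℝ) ≤ C * Real.logb 2 n →
      blk false σ ≤ W →
      (blk true σ : ℝ) ≤ κ * Real.logb 2 n / Real.logb 2 (Real.logb 2 n) →
      (lay false σ : ℝ) ≤ (2 - ε) * Real.logb 2 n →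
      ∀ F : Fm n, Fits σ F → ∃ x, F.eval x ≠ par x :=
  parity_free_layers C W ε hε

end Pool.Agent.Results.MP_027d00_lc.ParityFreeLayers
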