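import Mathlib
import Pool.Agent.H553R2.Lower
import Pool.Agent.H553R2.Upper

namespace H553R2

open Equiv

/-- Relabelling-invariant circuits with arbitrary counting gates for path systems (a P-complete
problem): polynomial size suffices at linear depth, while depth `d` requires more than `n ^ a`
gates as soon as `10 ^ 8 * (d + 1) ^ 3 * a ^ 9 ≤ n`. -/
theorem _root_.Pool.Agent.Results.MP_027d00_lc.SymmetricDepth.result :
    -- upper bound
    (∀ (n : ℕ) (M : Type) (_ : Fintype M) (s t : M),
      ∃ (Q : Type) (_ : Fintype Q) (_ : MulAction (Perm (Fin n)) Q) (C : SymCircuit n M Unit Q),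
        Fintype.card Q ≤ 4 * (n + Fintype.card M) ^ 4 ∧
        C.level C.out ≤ 2 * (n + Fintype.card M) ∧
        ∀ R, C.val R C.out ↔ Derivable R (Sum.inr s) (Sum.inr t)) ∧
    -- lower bound
    (∀ (n d a : ℕ) (M Λ Q : Type) (_ : Fintype Q) (_ : MulAction (Perm (Fin n)) Q)
      (C : SymCircuit n M Λ Q) (s t : M), s ≠ t → 1 ≤ a →
      10 ^ 8 * (d + 1) ^ 3 * a ^ 9 ≤ n → C.level C.out ≤ d →
      (∀ R, C.val R C.out ↔ Derivable R (Sum.inr s) (Sum.inr t)) →
      n ^ a < Fintype.card Q) := by
  refine ⟨?_, ?_⟩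
  · intro n M _ s t
    exact upper_bound n M s t
  · intro n d a M Λ Q _ _ C s t hst ha hn hd hC
    exact lower_bound C hst ha hn hd hC

end H553R2
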